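import Pool.Agent.N783.PQ.Sha

/-!
# PQ/SH6: locally trivial cocycles of order two are coboundaries
-/

set_option autoImplicit false
set_option linter.all false

open Polynomial Ideal
open scoped Classical

namespace Pool.Agent.N490.PQ

open Pool.Agent.N783.PQ
open Pool.Agent.Y723.HJ (CR OddM HF clmap mapR CC mi bar nm cl lead ev val del nm_top cl_top
  locConst_apply exists_restrict)

theorem galQB : IsGalois ℚ QB := by
  have h : @IsGalois ℚ _ QB _ (AlgebraicClosure.instAlgebra ℚ) := inferInstance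
  convert h
  exact Subsingleton.elim _ _

lemma charQB : CharZero QB := algebraRat.charZero QB

lemma hf_of {g : ℕ} {a : Fin (2 * g) → ℤ} (hirr : Irreducible (fol a ℚ)) (L : Type) [Field L]
    [CharZero L] : HF (fol a L) :=
  { instOddM a L with
    sep := by
      have := hirr.separable.map (f := Rat.castHom L)
      rwa [fol_map] at this
    two := two_ne_zero }

section rf

variable {L : Type} [Field L] [IsAlgClosed L] [CharZero L] {f : L[X]} [HF f]

lemma del_top (α : L) : del α (⊤ : Ideal (CR f)) = 1 := by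
  unfold del
  rw [nm_top, natDegree_one, pow_zero, eval_one, mul_one]

lemma rf_pm (h1 : S_RF) {T : ClassGroup (CR f)} {s : L → L} (hs : Rf T ⊤ s) {α : L}
    (hα : f.eval α = 0) : s α = 1 ∨ s α = -1 := by
  have h := (h1 L f).2.2.2.1 T ⊤ s top_ne_bot hs α hα
  rw [del_top] at h
  exact sq_eq_one_iff_of_side_pm h
where
  sq_eq_one_iff_of_side_pm {x : L} (h : x ^ 2 = 1) : x = 1 ∨ x = -1 := by
    have : (x - 1) * (x + 1) = 0 := by linear_combination h
    rcases mul_eq_zero.1 this with h | h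
    · exact Or.inl (sub_eq_zero.1 h)
    · exact Or.inr (eq_neg_of_add_eq_zero_left h)

lemma rf_mul (h1 : S_RF) {T T' : ClassGroup (CR f)} {s s' : L → L} (hs : Rf T ⊤ s)
    (hs' : Rf T' ⊤ s') : Rf (T * T') ⊤ (fun α => s α * s' α) := by
  have h := (h1 L f).2.2.1 T T' ⊤ ⊤ s s' hs hs'
  rwa [Ideal.top_mul] at h

lemma rf_uniq (h1 : S_RF) {T : ClassGroup (CR f)} {s s' : L → L} (hs : Rf T ⊤ s)
    (hs' : Rf T ⊤ s') {α : L} (hα : f.eval α = 0) : s α = s' α :=
  (h1 L f).2.1 T ⊤ s s' top_ne_bot hs hs' α hα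

lemma rf_map (h2 : S_RFM) {E : Type} [Field E] [CharZero E] {f' : E[X]} [HF f'] (φ : L →+* E)
    (h : f.map φ = f') {P : ClassGroup (CR f)} {s : L → L} {s' : E → E} (hs : Rf P ⊤ s)
    (hs' : ∀ α, f.eval α = 0 → s' (φ α) = φ (s α)) : Rf (clmap φ h P) ⊤ s' := by
  have := h2 L E f f' φ h P ⊤ s s' hs hs'
  rwa [Ideal.map_top] at this

end rf

section loc

variable {g : ℕ} {a : Fin (2 * g) → ℤ}

/-- the local step -/
theorem loc [IsGalois ℚ QB] (hirr : Irreducible (fol a ℚ)) [HF (fol a QB)] [CharZero QB] (h2 : S_RFM)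
    (h6 : S_LCC) {c : GQ → Jac a QB} (hc2 : ∀ σ, c σ + c σ = 0) (sg : GQ → QB → QB)
    (hsg : ∀ σ, Rf (c σ).toMul ⊤ (sg σ)) (b : QB → QB) (h : ℚ[X])
    (hb : ∀ α : QB, aeval α (fol a ℚ) = 0 → b α ^ 2 = aeval α h)
    (hσ : ∀ (σ : GQ) (α : QB), aeval α (fol a ℚ) = 0 → σ (b α) = sg σ (σ α) * b (σ α))
    (K : Type) [Field K] [Algebra ℚ K] (hl : LocallyTrivial a K c) :
    LocIm K (fol a K) (h.map (algebraMap ℚ K)) := by
  obtain ⟨φ, res, P, hres, hP⟩ : ∃ (φ : QB →+* AlgebraicClosure K)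
      (res : (AlgebraicClosure K ≃ₐ[K] AlgebraicClosure K) → GQ) (P : Jac a (AlgebraicClosure K)),
      (∀ τ x, τ (φ x) = φ (res τ x)) ∧
      ∀ τ : AlgebraicClosure K ≃ₐ[K] AlgebraicClosure K, jmap a φ (c (res τ)) =
        jmap a (τ : AlgebraicClosure K →+* AlgebraicClosure K) P - P := by
    obtain ⟨ι⟩ : Nonempty (QB →ₐ[ℚ] AlgebraicClosure K) := ⟨IsAlgClosed.lift⟩
    obtain ⟨P, hP⟩ := hl ι
    choose res hres using exists_restrict (K := ℚ) (Ω := QB) (F := K) (Ω' := AlgebraicClosure K) ι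
    exact ⟨ι, res, P, hres, fun τ => hP τ (res τ) (hres τ)⟩
  haveI : CharZero K := algebraRat.charZero K
  haveI : HF (fol a K) := hf_of hirr K
  haveI : CharZero (AlgebraicClosure K) := charZero_of_injective_algebraMap (algebraMap K (AlgebraicClosure K)).injective
  haveI : HF (fol a (AlgebraicClosure K)) := hf_of hirr _
  have hinv : ∀ x, Function.invFun φ (φ x) = x := Function.leftInverse_invFun φ.injective
  have hroot : ∀ α : AlgebraicClosure K, aeval α (fol a K) = 0 → ∃ α0 : QB, φ α0 = α ∧ aeval α0 (fol a ℚ) = 0 := by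
    intro α hα
    have h3 : (fol a (AlgebraicClosure K)).eval α = 0 := by
      rw [← fol_map a (algebraMap K (AlgebraicClosure K)), eval_map_algebraMap]
      exact hα
    have h4 : (fol a (AlgebraicClosure K)) = ((fol a QB).roots.map fun r => X - C (φ r)).prod := by
      have h5 := (IsAlgClosed.splits (fol a QB)).eq_prod_roots_of_monic (instOddM a QB).monic
      have h6 := congrArg (Polynomial.map φ) h5
      rw [fol_map, Polynomial.map_multiset_prod, Multiset.map_map] at h6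
      rw [h6]
      congr 1
      refine Multiset.map_congr rfl fun r _ => ?_
      simp
    rw [h4, eval_multiset_prod, Multiset.prod_eq_zero_iff, Multiset.mem_map] at h3
    obtain ⟨p, hp, hp0⟩ := h3
    rw [Multiset.mem_map] at hp
    obtain ⟨α0, hα0, rfl⟩ := hp
    refine ⟨α0, ?_, ?_⟩
    · rw [eval_sub, eval_X, eval_C, sub_eq_zero] at hp0
      exact hp0.symm
    · have h7 := (mem_roots'.1 hα0).2
      rw [← fol_map a (algebraMap ℚ QB), IsRoot.def, eval_map_algebraMap] at h7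
      exact h7
  have hτ : ∀ τ : AlgebraicClosure K ≃ₐ[K] AlgebraicClosure K,
      (fol a (AlgebraicClosure K)).map (τ : AlgebraicClosure K →+* AlgebraicClosure K) = fol a (AlgebraicClosure K) :=
    fun τ => fol_map a _
  have hev : ∀ α0 : QB, aeval (φ α0) (h.map (algebraMap ℚ K)) = φ (aeval α0 h) := by
    intro α0
    rw [← eval_map_algebraMap, Polynomial.map_map, eval_map, ← eval_map_algebraMap, eval_map,
      hom_eval₂]
    congr 1
    exact Subsingleton.elim _ _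
  refine h6 K (fol a K) (h.map (algebraMap ℚ K)) (fol a (AlgebraicClosure K)) (fol_map a _) hτ P.toMul
    (fun τ => (jmap a φ (c (res τ))).toMul)
    (fun τ β => φ (sg (res τ) (Function.invFun φ β))) (fun β => φ (b (Function.invFun φ β)))
    (fun τ => ?_) (fun τ => ?_) (fun τ => ?_) (fun α hα => ?_) (fun τ α hα => ?_)
  · rw [pow_two, ← toMul_add, ← map_add, hc2, map_zero]
    rfl
  · rw [hP, ← toMul_add]
    show (jmap a (τ : AlgebraicClosure K →+* AlgebraicClosure K) P).toMul = _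
    congr 1
    abel
  · refine rf_map h2 φ (fol_map a _) (hsg (res τ)) fun α hα => ?_
    show φ (sg (res τ) (Function.invFun φ (φ α))) = φ (sg (res τ) α)
    rw [hinv]
  · obtain ⟨α0, rfl, h0⟩ := hroot α hα
    rw [hinv, ← map_pow, hb α0 h0, hev]
  · obtain ⟨α0, rfl, h0⟩ := hroot α hα
    rw [hinv, hres, hσ _ _ h0, map_mul, hres, hinv]

end loc

theorem norm_prod {K Ω : Type} [Field K] [Field Ω] [Algebra K Ω] [IsAlgClosed Ω] [CharZero K] {f : K[X]} (h : K[X])
    (hf : Irreducible f) (b : Ω → Ω) (hb : ∀ α, aeval α f = 0 → b α ^ 2 = aeval α h) :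
    algebraMap K Ω (Algebra.norm K (AdjoinRoot.mk f h)) =
      (∏ α ∈ (f.map (algebraMap K Ω)).roots.toFinset, b α) ^ 2 := by
  haveI : Fact (Irreducible f) := ⟨hf⟩
  haveI : FiniteDimensional K (AdjoinRoot f) := (AdjoinRoot.powerBasis hf.ne_zero).finite
  rw [Algebra.norm_eq_prod_embeddings K Ω (AdjoinRoot.mk f h), ← Finset.prod_pow]
  have hroot : ∀ σ : AdjoinRoot f →ₐ[K] Ω, aeval (σ (AdjoinRoot.root f)) f = 0 := by
    intro σ
    rw [aeval_algHom_apply, AdjoinRoot.aeval_eq, AdjoinRoot.mk_self, map_zero]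
  refine Finset.prod_bij (fun σ _ => σ (AdjoinRoot.root f)) (fun σ _ => ?_) (fun σ _ σ' _ hh => ?_)
    (fun α hα => ?_) (fun σ _ => ?_)
  · rw [Multiset.mem_toFinset, mem_roots_map hf.ne_zero, ← aeval_def]
    exact hroot σ
  · exact AdjoinRoot.algHom_ext hh
  · rw [Multiset.mem_toFinset, mem_roots_map hf.ne_zero] at hα
    refine ⟨AdjoinRoot.liftAlgHom f (Algebra.ofId K Ω) α hα, Finset.mem_univ _, ?_⟩
    exact AdjoinRoot.liftAlgHom_root _ _ _ _
  · rw [hb _ (hroot σ), aeval_algHom_apply, AdjoinRoot.aeval_eq]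

theorem rep (h1 : S_RF) (h2 : S_RFM) (h3 : S_TWO) (h4 : S_ITP) (h5 : S_HIL) (h6 : S_LCC) : S_REP := by
  intro g a hirr hsel c hc hc2
  haveI := galQB
  haveI := charQB
  haveI : HF (fol a QB) := hf_of hirr QB
  have hrt : ∀ α : QB, aeval α (fol a ℚ) = 0 ↔ (fol a QB).eval α = 0 := by
    intro α
    rw [← fol_map a (algebraMap ℚ QB), eval_map_algebraMap]
  have hex : ∀ T : Jac a QB, ∃ s : QB → QB, T + T = 0 → Rf T.toMul ⊤ s := by
    intro T
    by_cases hT : T + T = 0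
    · obtain ⟨s, hs⟩ := (h1 QB (fol a QB)).1 T.toMul ⊤ top_ne_bot (by
        rw [cl_top, pow_two, ← toMul_add, hT]; rfl)
      exact ⟨s, fun _ => hs⟩
    · exact ⟨fun _ => 1, fun h => absurd h hT⟩
  choose sgn hsgn using hex
  have hfix : ∀ (σ : GQ) (α : QB), aeval α (fol a ℚ) = 0 → aeval (σ α) (fol a ℚ) = 0 := by
    intro σ α hα
    have := aeval_algHom_apply (σ : QB →ₐ[ℚ] QB) α (fol a ℚ)
    rw [hα, map_zero] at this
    exact this
  have hpm : ∀ T : Jac a QB, T + T = 0 → ∀ α : QB, aeval α (fol a ℚ) = 0 → sgn T α = 1 ∨ sgn T α = -1 :=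
    fun T hT α hα => rf_pm h1 (hsgn T hT) ((hrt α).1 hα)
  have hadd2 : ∀ T T' : Jac a QB, T + T = 0 → T' + T' = 0 → (T + T') + (T + T') = 0 := by
    intro T T' hT hT'
    rw [add_add_add_comm, hT, hT', add_zero]
  have hadd : ∀ T T' : Jac a QB, T + T = 0 → T' + T' = 0 → ∀ α : QB, aeval α (fol a ℚ) = 0 →
      sgn (T + T') α = sgn T α * sgn T' α := by
    intro T T' hT hT' α hα
    have e1 := hsgn (T + T') (hadd2 T T' hT hT')
    rw [toMul_add] at e1
    exact rf_uniq h1 e1 (rf_mul h1 (hsgn T hT) (hsgn T' hT')) ((hrt α).1 hα)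
  have hact2 : ∀ (σ : GQ) (T : Jac a QB), T + T = 0 → act a σ T + act a σ T = 0 := by
    intro σ T hT
    rw [← map_add, hT, map_zero]
  have hact : ∀ (σ : GQ) (T : Jac a QB), T + T = 0 → ∀ α : QB, aeval α (fol a ℚ) = 0 →
      sgn (act a σ T) (σ α) = sgn T α := by
    intro σ T hT α hα
    have e1 : Rf (clmap (σ : QB →+* QB) (fol_map a (σ : QB →+* QB)) T.toMul) ⊤
        (fun β => σ (sgn T (σ.symm β))) :=
      rf_map h2 (σ : QB →+* QB) (fol_map a _) (hsgn T hT) fun β _ => by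
        show σ (sgn T (σ.symm (σ β))) = σ (sgn T β)
        rw [AlgEquiv.symm_apply_apply]
    have e2 := rf_uniq h1 (hsgn (act a σ T) (hact2 σ T hT)) e1 ((hrt _).1 (hfix σ α hα))
    rw [e2, AlgEquiv.symm_apply_apply]
    rcases hpm T hT α hα with h | h <;> rw [h]
    · exact map_one σ
    · rw [map_neg, map_one]
  obtain ⟨b, hb0, hb⟩ := h5 (fol a ℚ) hirr (fun σ α => sgn (c σ) (σ α))
    (fun σ α hα => hpm (c σ) (hc2 σ) _ (hfix σ α hα))
    (fun σ τ α hα => by
      show sgn (c (σ * τ)) ((σ * τ) α) = sgn (c σ) (σ (τ α)) * sgn (c τ) (τ α)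
      rw [hc.1.2, hadd _ _ (hc2 σ) (hact2 σ _ (hc2 τ)) _ (hfix (σ * τ) α hα), AlgEquiv.mul_apply,
        hact σ _ (hc2 τ) _ (hfix τ α hα)])
    (fun α hα => IsLocallyConstant.comp₂ hc.1.1 (locConst_apply (K := ℚ) (Ω := QB) α) (fun T β => sgn T β))
  have hb' : ∀ (σ : GQ) (α : QB), aeval α (fol a ℚ) = 0 → σ (b α) = sgn (c σ) (σ α) * b (σ α) := hb
  obtain ⟨h, hh⟩ := h4 ℚ QB (fol a ℚ) hirr.separable (IsAlgClosed.splits _) (fun α => b α ^ 2) (by
    intro τ α hα
    show τ (b α ^ 2) = b (τ α) ^ 2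
    rw [map_pow, hb' τ α hα, mul_pow]
    rcases hpm (c τ) (hc2 τ) _ (hfix τ α hα) with h | h <;> rw [h] <;> ring)
  -- the polynomial `h`
  have hcop : IsCoprime h (fol a ℚ) := by
    refine IsCoprime.symm ((Irreducible.coprime_iff_not_dvd hirr).2 fun hdvd => ?_)
    obtain ⟨α, hα⟩ := IsAlgClosed.exists_aeval_eq_zero QB (fol a ℚ) (by
      rw [Polynomial.degree_eq_natDegree hirr.ne_zero, fol_natDegree]
      exact Nat.cast_ne_zero.2 (Nat.succ_ne_zero _))
    obtain ⟨q, hq⟩ := hdvd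
    have e1 := hh α hα
    rw [hq, map_mul, hα, zero_mul] at e1
    exact hb0 α hα (pow_eq_zero_iff (two_ne_zero)|>.1 e1.symm)
  have hnorm : IsSquare (Algebra.norm ℚ (AdjoinRoot.mk (fol a ℚ) h)) := by
    have e1 := norm_prod (Ω := QB) h hirr b (fun α hα => (hh α hα).symm)
    rw [fol_map] at e1
    have e2 : (∏ α ∈ (fol a QB).roots.toFinset, b α) ∈ Set.range (algebraMap ℚ QB) := by
      rw [InfiniteGalois.mem_range_algebraMap_iff_fixed]
      intro τ
      have hmem : ∀ α : QB, α ∈ (fol a QB).roots.toFinset ↔ aeval α (fol a ℚ) = 0 := by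
        intro α
        rw [Multiset.mem_toFinset, mem_roots (instOddM a QB).monic.ne_zero, IsRoot.def, hrt]
      have hperm : ∀ F : QB → QB, ∏ α ∈ (fol a QB).roots.toFinset, F (τ α) =
          ∏ α ∈ (fol a QB).roots.toFinset, F α := by
        intro F
        refine Finset.prod_equiv τ.toEquiv (fun α => ?_) (fun α _ => rfl)
        rw [hmem, hmem]
        refine ⟨fun h => hfix τ α h, fun h => ?_⟩
        have e3 := hfix τ⁻¹ _ h
        have e4 : τ⁻¹ (τ.toEquiv α) = α := τ.symm_apply_apply α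
        rwa [e4] at e3
      rw [map_prod, Finset.prod_congr rfl fun α hα => hb' τ α ((hmem α).1 hα), Finset.prod_mul_distrib,
        hperm, hperm, (h3 QB (fol a QB)).1 (c τ).toMul (sgn (c τ)) (by
          rw [pow_two, ← toMul_add, hc2]; rfl) (hsgn _ (hc2 τ)), one_mul]
    obtain ⟨q, hq⟩ := e2
    rw [← hq, ← map_pow] at e1
    refine ⟨q, ?_⟩
    rw [← pow_two]
    exact (algebraMap ℚ QB).injective e1
  have hloc : ∀ (K : Type) [Field K] [Algebra ℚ K], LocallyTrivial a K c →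
      LocIm K (fol a K) (h.map (algebraMap ℚ K)) := fun K _ _ hl =>
    loc hirr h2 h6 hc2 (fun σ => sgn (c σ)) (fun σ => hsgn _ (hc2 σ)) b h (fun α hα => (hh α hα).symm) hb' K hl
  obtain ⟨s, hs⟩ := hsel h hcop hnorm (fun p _ => by
    have e1 := hloc ℚ_[p] (hc.2.1 p)
    convert e1 using 2
    exact Subsingleton.elim _ _) (by
    have e1 := hloc ℝ hc.2.2
    convert e1 using 2
    exact Subsingleton.elim _ _)
  -- the signs
  have hbs : ∀ α : QB, aeval α (fol a ℚ) = 0 → b α ^ 2 = aeval α s ^ 2 := by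
    intro α hα
    obtain ⟨q, hq⟩ := hs
    have e1 := congrArg (aeval α) hq
    have e2 : aeval α (ov ℚ (pol a)) = 0 := hα
    rw [map_sub, map_pow, map_mul, e2, zero_mul, sub_eq_zero, hh α hα] at e1
    exact e1
  have hs0 : ∀ α : QB, aeval α (fol a ℚ) = 0 → aeval α s ≠ 0 := by
    intro α hα h0
    have e1 := hbs α hα
    rw [h0] at e1
    exact hb0 α hα (pow_eq_zero_iff (two_ne_zero)|>.1 (by rw [e1]; ring))
  have hε : ∀ α : QB, aeval α (fol a ℚ) = 0 → b α / aeval α s = 1 ∨ b α / aeval α s = -1 := by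
    intro α hα
    rcases sq_eq_sq_iff_eq_or_eq_neg.1 (hbs α hα) with h | h
    · left
      rw [h, div_self (hs0 α hα)]
    · right
      rw [h, neg_div, div_self (hs0 α hα)]
  obtain ⟨T, c0, hT2, hc0, hT⟩ := (h3 QB (fol a QB)).2 (fun α => b α / aeval α s)
    (fun α hα => hε α ((hrt α).2 hα))
  obtain ⟨T', hT'⟩ : ∃ T' : Jac a QB, T'.toMul = T := ⟨Additive.ofMul T, rfl⟩
  have hT'2 : T' + T' = 0 := by
    have : (T' + T').toMul = 1 := by rw [toMul_add, hT', ← pow_two, hT2]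
    exact this
  refine ⟨T', hT'2, fun σ => ?_⟩
  have hneg : -T' = T' := neg_eq_of_add_eq_zero_left hT'2
  have hD2 : (c σ + act a σ T' + T') + (c σ + act a σ T' + T') = 0 :=
    hadd2 _ _ (hadd2 _ _ (hc2 σ) (hact2 σ _ hT'2)) hT'2
  have hsT : ∀ α : QB, aeval α (fol a ℚ) = 0 → sgn T' α = c0 * (b α / aeval α s) := by
    intro α hα
    have e1 := hsgn T' hT'2
    rw [hT'] at e1
    exact rf_uniq h1 e1 hT ((hrt α).1 hα)
  have hD : (c σ + act a σ T' + T').toMul = 1 := by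
    refine (h1 QB (fol a QB)).2.2.2.2 _ _ (hsgn _ hD2) fun β hβ => ?_
    have hβ' := (hrt β).2 hβ
    obtain ⟨α, hα⟩ : ∃ α : QB, σ α = β := ⟨σ.symm β, σ.apply_symm_apply β⟩
    have hα' : aeval α (fol a ℚ) = 0 := by
      have e3 := hfix σ⁻¹ β hβ'
      rw [← hα] at e3
      have e4 : σ⁻¹ (σ α) = α := σ.symm_apply_apply α
      rwa [e4] at e3
    subst hα
    rw [hadd _ _ (hadd2 _ _ (hc2 σ) (hact2 σ _ hT'2)) hT'2 _ hβ', hadd _ _ (hc2 σ) (hact2 σ _ hT'2) _ hβ',
      hact σ _ hT'2 _ hα', hsT _ hα', hsT _ hβ']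
    have e5 : σ (b α / aeval α s) = b α / aeval α s := by
      rcases hε α hα' with h | h <;> rw [h]
      · exact map_one σ
      · rw [map_neg, map_one]
    have e6 : σ (aeval α s) = aeval (σ α) s := (aeval_algHom_apply (σ : QB →ₐ[ℚ] QB) α s).symm
    rw [map_div₀, hb' σ α hα', e6] at e5
    have e7 : c0 * c0 = 1 := by rcases hc0 with h | h <;> rw [h] <;> ring
    rw [← e5]
    rcases hpm (c σ) (hc2 σ) _ hβ' with h | h <;> rcases hε (σ α) hβ' with h' | h' <;>
      rw [mul_div_assoc, h, h'] <;> linear_combination e7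
  have hD' : c σ + act a σ T' + T' = 0 := hD
  rw [sub_eq_add_neg, hneg]
  have e8 : c σ + (act a σ T' + T') = 0 := by rw [← add_assoc]; exact hD'
  rw [eq_neg_of_add_eq_zero_left e8]
  exact neg_eq_of_add_eq_zero_left (hadd2 _ _ (hact2 σ _ hT'2) hT'2)

end Pool.Agent.N490.PQ
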